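import Pool.Agent.X64.NO1.Poly

/-!
# MP_072d80_co, Q1: a near-optimal 1-plane graph whose graph is not maximal 1-planar

The graph has 8 vertices and 22 edges (all pairs except 01, 25, 36, 37, 46, 47). The straight-line
drawing with the points `P` is near optimal; the straight-line drawing with the points `Q` shows
that the graph with the additional edge 37 is 1-planar.
-/

namespace Pool.Agent.Results.MP_072d80_co.NotMaximal

open Pool.Agent.X64.Hex Pool.Agent.X64.NO1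

variable {V : Type}

/-- The straight-line segment that represents the pair `a b`, if the vertex `v` is drawn at
`p v`. -/
def Seg (p : V → Plane) (a b : V) : Set Plane := segment ℝ (p a) (p b)

/-- The segments of the pairs `a b` and `c d` without a common vertex have a common point. -/
def Crosses (p : V → Plane) (a b c d : V) : Prop :=
  a ≠ c ∧ a ≠ d ∧ b ≠ c ∧ b ≠ d ∧ (Seg p a b ∩ Seg p c d).Nonempty

/-- The straight-line drawing of `G` with the vertices at the points `p` is a 1-plane graph: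
the vertices are distinct points, no edge contains a vertex other than its two ends, and each edge
is crossed by at most one other edge. -/
structure OnePlane (G : SimpleGraph V) (p : V → Plane) : Prop where
  inj : Function.Injective p
  avoid : ∀ a b c, G.Adj a b → p c ∈ Seg p a b → c = a ∨ c = b
  once : ∀ a b c d e f, G.Adj a b → G.Adj c d → G.Adj e f →
    Crosses p a b c d → Crosses p a b e f → s(c, d) = s(e, f)

/-- The graph `H` of the edges of `G` that are not crossed. -/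
def uncrossed (G : SimpleGraph V) (p : V → Plane) : SimpleGraph V where
  Adj a b := G.Adj a b ∧ ∀ c d, G.Adj c d → ¬ Crosses p a b c d
  symm := by
    constructor
    rintro a b ⟨h, h'⟩
    refine ⟨h.symm, fun c d hcd hc => h' c d hcd ?_⟩
    obtain ⟨h1, h2, h3, h4, h5⟩ := hc
    refine ⟨h3, h4, h1, h2, ?_⟩
    unfold Seg at h5 ⊢
    rwa [segment_symm ℝ (p a)]
  loopless := ⟨fun a h => G.loopless.irrefl a h.1⟩

/-- The points of the drawing of `H`. -/
def support (H : SimpleGraph V) (p : V → Plane) : Set Plane :=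
  Set.range p ∪ {x | ∃ a b, H.Adj a b ∧ x ∈ Seg p a b}

/-- A face of the drawing of `H`: a connected component of the complement of the drawing. -/
def IsFace (H : SimpleGraph V) (p : V → Plane) (F : Set Plane) : Prop :=
  ∃ x, x ∉ support H p ∧ F = connectedComponentIn (support H p)ᶜ x

/-- The face `F` is bounded by the 3-cycle `a b c` of `H`. -/
def Triangular (H : SimpleGraph V) (p : V → Plane) (F : Set Plane) (a b c : V) : Prop :=
  H.Adj a b ∧ H.Adj b c ∧ H.Adj c a ∧ frontier F = Seg p a b ∪ Seg p b c ∪ Seg p c a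

/-- The face `F` is bounded by the 4-cycle `a b c d` of `H`. -/
def Quadrangular (H : SimpleGraph V) (p : V → Plane) (F : Set Plane) (a b c d : V) : Prop :=
  H.Adj a b ∧ H.Adj b c ∧ H.Adj c d ∧ H.Adj d a ∧ a ≠ c ∧ b ≠ d ∧
    frontier F = Seg p a b ∪ Seg p b c ∪ Seg p c d ∪ Seg p d a

/-- The straight-line drawing of `G` with the vertices at the points `p` is a near-optimal 1-plane
graph. -/
structure NearOptimal (G : SimpleGraph V) (p : V → Plane) : Prop where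
  onePlane : OnePlane G p
  /-- every face of `H` is bounded by a 3-cycle or a 4-cycle -/
  faces : ∀ F, IsFace (uncrossed G p) p F →
    (∃ a b c, Triangular (uncrossed G p) p F a b c) ∨
    (∃ a b c d, Quadrangular (uncrossed G p) p F a b c d)
  /-- a face bounded by a 4-cycle contains the crossing point of the two diagonals, which are
  crossing edges, and it meets no other edge -/
  quads : ∀ F a b c d, IsFace (uncrossed G p) p F → Quadrangular (uncrossed G p) p F a b c d →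
    G.Adj a c ∧ G.Adj b d ∧ (∃ x ∈ F, Seg p a c ∩ Seg p b d = {x}) ∧
    ∀ e f, G.Adj e f → (Seg p e f ∩ F).Nonempty → s(e, f) = s(a, c) ∨ s(e, f) = s(b, d)
  /-- a face bounded by a 3-cycle meets no edge -/
  tris : ∀ F a b c, IsFace (uncrossed G p) p F → Triangular (uncrossed G p) p F a b c →
    ∀ e f, G.Adj e f → Seg p e f ∩ F = ∅
  /-- no two faces bounded by 3-cycles share an edge -/
  sep : ∀ F F' a b c c', IsFace (uncrossed G p) p F → IsFace (uncrossed G p) p F' → F ≠ F' →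
    Triangular (uncrossed G p) p F a b c → ¬ Triangular (uncrossed G p) p F' a b c'

/-! ### The graph and the two drawings -/

def P : Fin 8 → IP := ![(0, 4), (5, 5), (6, 6), (3, 0), (3, 1), (2, 3), (1, 4), (4, 5)]

def Q : Fin 8 → IP := ![(3, 5), (1, 0), (2, 3), (1, 5), (0, 6), (6, 6), (4, 4), (3, 4)]

def gb (a b : Fin 8) : Bool :=
  decide (a ≠ b) && !(decide ((a, b) ∈ [((0 : Fin 8), (1 : Fin 8)), (2, 5), (3, 6), (3, 7), (4, 6),
    (4, 7)])) && !(decide ((b, a) ∈ [((0 : Fin 8), (1 : Fin 8)), (2, 5), (3, 6), (3, 7), (4, 6),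
    (4, 7)]))

def gb' (a b : Fin 8) : Bool := gb a b || decide ((a, b) = (3, 7)) || decide ((a, b) = (7, 3))

def hb (a b : Fin 8) : Bool :=
  decide ((a, b) ∈ [((0 : Fin 8), (2 : Fin 8)), (0, 3), (0, 5), (0, 6), (1, 2), (1, 4), (1, 5),
    (1, 7), (2, 3), (2, 7), (3, 4), (4, 5), (5, 6), (6, 7)]) ||
  decide ((b, a) ∈ [((0 : Fin 8), (2 : Fin 8)), (0, 3), (0, 5), (0, 6), (1, 2), (1, 4), (1, 5),
    (1, 7), (2, 3), (2, 7), (3, 4), (4, 5), (5, 6), (6, 7)])

/-- The graph. -/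
def G : SimpleGraph (Fin 8) where
  Adj a b := gb a b = true
  symm := ⟨by decide +kernel⟩
  loopless := ⟨by decide +kernel⟩

/-- The point of a vertex. -/
def pt (R : Fin 8 → IP) (v : Fin 8) : Plane := cc (R v)

/-! ### Crossings -/

theorem crosses_iff (R : Fin 8 → IP) (ab : Fin 8 → Fin 8 → Bool)
    (hchk : ∀ a b c d, ab a b = true → ab c d = true → (a ≠ c ∧ a ≠ d ∧ b ≠ c ∧ b ≠ d) →
      (crsB (R a, R b) (R c, R d) || sepB (R a, R b) (R c, R d)) = true)
    {a b c d : Fin 8} (h1 : ab a b = true) (h2 : ab c d = true) :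
    Crosses (pt R) a b c d ↔
      a ≠ c ∧ a ≠ d ∧ b ≠ c ∧ b ≠ d ∧ crsB (R a, R b) (R c, R d) = true := by
  constructor
  · rintro ⟨e1, e2, e3, e4, x, hx1, hx2⟩
    refine ⟨e1, e2, e3, e4, ?_⟩
    have := hchk a b c d h1 h2 ⟨e1, e2, e3, e4⟩
    rw [Bool.or_eq_true] at this
    rcases this with h | h
    · exact h
    · exact (sepB_spec h hx1 hx2).elim
  · rintro ⟨e1, e2, e3, e4, h⟩
    obtain ⟨⟨x, hx1, hx2⟩, -, -⟩ := crsB_spec h
    exact ⟨e1, e2, e3, e4, x, openSegment_subset_segment _ _ _ hx1,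
      openSegment_subset_segment _ _ _ hx2⟩

theorem onePlane_of (R : Fin 8 → IP) (ab : Fin 8 → Fin 8 → Bool) (K : SimpleGraph (Fin 8))
    (hK : ∀ a b, K.Adj a b ↔ ab a b = true)
    (hchk : ∀ a b c d, ab a b = true → ab c d = true → (a ≠ c ∧ a ≠ d ∧ b ≠ c ∧ b ≠ d) →
      (crsB (R a, R b) (R c, R d) || sepB (R a, R b) (R c, R d)) = true)
    (hgp : ∀ a b c : Fin 8, a ≠ b → c ≠ a → c ≠ b → oi (R a) (R b) (R c) ≠ 0)
    (pa : Fin 8 → Fin 8 → Fin 8 × Fin 8)
    (hpa : ∀ a b c d, ab a b = true → ab c d = true → (a ≠ c ∧ a ≠ d ∧ b ≠ c ∧ b ≠ d ∧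
      crsB (R a, R b) (R c, R d) = true) → (c, d) = pa a b ∨ (d, c) = pa a b) :
    OnePlane K (pt R) := by
  have hne : ∀ a b : Fin 8, a ≠ b → R a ≠ R b := by
    intro a b hab h
    have hex : ∀ a b : Fin 8, ∃ c : Fin 8, c ≠ a ∧ c ≠ b := by decide
    obtain ⟨c, hc1, hc2⟩ := hex a b
    have := hgp a b c hab hc1 hc2
    rw [h] at this
    apply this
    unfold oi
    ring
  refine ⟨?_, ?_, ?_⟩
  · intro a b h
    by_contra hab
    exact hne a b hab (cc_inj h)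
  · intro a b c h h'
    by_contra hc
    rw [not_or] at hc
    have hab : a ≠ b := K.ne_of_adj h
    have h1 := ori_zero_of_mem h'
    unfold pt at h1
    rw [ori_cc] at h1
    exact hgp a b c hab hc.1 hc.2 (by exact_mod_cast h1)
  · intro a b c d e f h1 h2 h3 h4 h5
    rw [hK] at h1 h2 h3
    rw [crosses_iff R ab hchk h1 h2] at h4
    rw [crosses_iff R ab hchk h1 h3] at h5
    have h6 := hpa a b c d h1 h2 h4
    have h7 := hpa a b e f h1 h3 h5
    rcases h6 with h6 | h6 <;> rcases h7 with h7 | h7 <;> rw [← h7] at h6 <;>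
      rw [Prod.mk.injEq] at h6 <;> obtain ⟨r1, r2⟩ := h6 <;> subst r1 <;> subst r2
    · rfl
    · exact Sym2.eq_swap
    · exact Sym2.eq_swap
    · rfl

def pa (a b : Fin 8) : Fin 8 × Fin 8 :=
  if (a, b) = (0, 4) ∨ (a, b) = (4, 0) then (3, 5) else
  if (a, b) = (3, 5) ∨ (a, b) = (5, 3) then (0, 4) else
  if (a, b) = (0, 7) ∨ (a, b) = (7, 0) then (2, 6) else
  if (a, b) = (2, 6) ∨ (a, b) = (6, 2) then (0, 7) else
  if (a, b) = (1, 3) ∨ (a, b) = (3, 1) then (2, 4) else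
  if (a, b) = (2, 4) ∨ (a, b) = (4, 2) then (1, 3) else
  if (a, b) = (1, 6) ∨ (a, b) = (6, 1) then (5, 7) else (1, 6)

def pa' (a b : Fin 8) : Fin 8 × Fin 8 :=
  if (a, b) = (0, 2) ∨ (a, b) = (2, 0) then (3, 7) else
  if (a, b) = (3, 7) ∨ (a, b) = (7, 3) then (0, 2) else
  if (a, b) = (0, 4) ∨ (a, b) = (4, 0) then (3, 5) else
  if (a, b) = (3, 5) ∨ (a, b) = (5, 3) then (0, 4) else
  if (a, b) = (0, 6) ∨ (a, b) = (6, 0) then (5, 7) else
  if (a, b) = (5, 7) ∨ (a, b) = (7, 5) then (0, 6) else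
  if (a, b) = (1, 3) ∨ (a, b) = (3, 1) then (2, 4) else
  if (a, b) = (2, 4) ∨ (a, b) = (4, 2) then (1, 3) else
  if (a, b) = (1, 7) ∨ (a, b) = (7, 1) then (2, 6) else (1, 7)

theorem chkP : ∀ a b c d, gb a b = true → gb c d = true → (a ≠ c ∧ a ≠ d ∧ b ≠ c ∧ b ≠ d) →
    (crsB (P a, P b) (P c, P d) || sepB (P a, P b) (P c, P d)) = true := by decide +kernel

theorem chkQ : ∀ a b c d, gb' a b = true → gb' c d = true → (a ≠ c ∧ a ≠ d ∧ b ≠ c ∧ b ≠ d) →
    (crsB (Q a, Q b) (Q c, Q d) || sepB (Q a, Q b) (Q c, Q d)) = true := by decide +kernel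

theorem onePlaneP : OnePlane G (pt P) :=
  onePlane_of P gb G (fun _ _ => Iff.rfl) chkP (by decide +kernel) pa (by decide +kernel)

theorem gb'_iff (a b : Fin 8) : (G ⊔ SimpleGraph.edge 3 7).Adj a b ↔ gb' a b = true := by
  rw [SimpleGraph.sup_adj, SimpleGraph.edge_adj]
  unfold gb'
  show gb a b = true ∨ _ ↔ _
  revert a b
  decide +kernel

theorem onePlaneQ : OnePlane (G ⊔ SimpleGraph.edge 3 7) (pt Q) :=
  onePlane_of Q gb' _ gb'_iff chkQ (by decide +kernel) pa' (by decide +kernel)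

theorem uncrossed_iff (a b : Fin 8) : (uncrossed G (pt P)).Adj a b ↔ hb a b = true := by
  constructor
  · rintro ⟨h1, h2⟩
    have h3 : ∀ c d, gb c d = true → ¬ (a ≠ c ∧ a ≠ d ∧ b ≠ c ∧ b ≠ d ∧
        crsB (P a, P b) (P c, P d) = true) := by
      intro c d hcd h
      exact h2 c d hcd ((crosses_iff P gb chkP h1 hcd).2 h)
    have h4 : ∀ a b, gb a b = true → (∀ c d, gb c d = true → ¬ (a ≠ c ∧ a ≠ d ∧ b ≠ c ∧ b ≠ d ∧
        crsB (P a, P b) (P c, P d) = true)) → hb a b = true := by decide +kernel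
    exact h4 a b h1 h3
  · intro h
    have h4 : ∀ a b, hb a b = true → gb a b = true ∧ (∀ c d, gb c d = true → ¬ (a ≠ c ∧ a ≠ d ∧
        b ≠ c ∧ b ≠ d ∧ crsB (P a, P b) (P c, P d) = true)) := by decide +kernel
    obtain ⟨h1, h2⟩ := h4 a b h
    exact ⟨h1, fun c d hcd hc => h2 c d hcd ((crosses_iff P gb chkP h1 hcd).1 hc)⟩

/-! ### The faces of the drawing `P` -/

theorem cover' (x y : ℝ)
    (h0 : 0 ≤ (3 : ℝ) * (y - 4) - (-4) * (x - 0))
    (h1 : 0 ≤ (3 : ℝ) * (y - 0) - (6) * (x - 3))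
    (h2 : 0 ≤ (-6 : ℝ) * (y - 6) - (-2) * (x - 6)) :
    (0 ≤ (3 : ℝ) * (y - 4) - (-4) * (x - 0) ∧ 0 ≤ (0 : ℝ) * (y - 0) - (1) * (x - 3) ∧ 0 ≤ (-1 : ℝ) * (y - 1) - (2) * (x - 3) ∧ 0 ≤ (-2 : ℝ) * (y - 3) - (1) * (x - 2)) ∨
    (0 ≤ (1 : ℝ) * (y - 4) - (0) * (x - 0) ∧ 0 ≤ (3 : ℝ) * (y - 4) - (1) * (x - 1) ∧ 0 ≤ (2 : ℝ) * (y - 5) - (1) * (x - 4) ∧ 0 ≤ (-6 : ℝ) * (y - 6) - (-2) * (x - 6)) ∨
    (0 ≤ (-2 : ℝ) * (y - 5) - (-4) * (x - 5) ∧ 0 ≤ (0 : ℝ) * (y - 1) - (-1) * (x - 3) ∧ 0 ≤ (3 : ℝ) * (y - 0) - (6) * (x - 3) ∧ 0 ≤ (-1 : ℝ) * (y - 6) - (-1) * (x - 6)) ∨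
    (0 ≤ (-1 : ℝ) * (y - 5) - (0) * (x - 5) ∧ 0 ≤ (-3 : ℝ) * (y - 5) - (-1) * (x - 4) ∧ 0 ≤ (1 : ℝ) * (y - 4) - (-1) * (x - 1) ∧ 0 ≤ (3 : ℝ) * (y - 3) - (2) * (x - 2)) ∨
    (0 ≤ (2 : ℝ) * (y - 4) - (-1) * (x - 0) ∧ 0 ≤ (-1 : ℝ) * (y - 3) - (1) * (x - 2) ∧ 0 ≤ (-1 : ℝ) * (y - 4) - (0) * (x - 1)) ∨
    (0 ≤ (-3 : ℝ) * (y - 5) - (-2) * (x - 5) ∧ 0 ≤ (1 : ℝ) * (y - 3) - (-2) * (x - 2) ∧ 0 ≤ (2 : ℝ) * (y - 1) - (4) * (x - 3)) ∨
    (0 ≤ (1 : ℝ) * (y - 5) - (1) * (x - 5) ∧ 0 ≤ (-2 : ℝ) * (y - 6) - (-1) * (x - 6) ∧ 0 ≤ (1 : ℝ) * (y - 5) - (0) * (x - 4)) := by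
  rcases le_total 0 ((-1 : ℝ) * (y - 1) - (2) * (x - 3)) with k1 | k1
  · rcases le_total 0 ((2 : ℝ) * (y - 4) - (-1) * (x - 0)) with k2 | k2
    · rcases le_total 0 ((1 : ℝ) * (y - 4) - (0) * (x - 0)) with k3 | k3
      · rcases le_total 0 ((3 : ℝ) * (y - 4) - (1) * (x - 1)) with k4 | k4
        · exact Or.inr (Or.inl ⟨by linarith, by linarith, by linarith, by linarith⟩)
        · exact Or.inr (Or.inr (Or.inr (Or.inl ⟨by linarith, by linarith, by linarith, by linarith⟩)))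
      · rcases le_total 0 ((-1 : ℝ) * (y - 3) - (1) * (x - 2)) with k5 | k5
        · exact Or.inr (Or.inr (Or.inr (Or.inr (Or.inl ⟨by linarith, by linarith, by linarith⟩))))
        · exact Or.inr (Or.inr (Or.inr (Or.inl ⟨by linarith, by linarith, by linarith, by linarith⟩)))
    · rcases le_total 0 ((0 : ℝ) * (y - 0) - (1) * (x - 3)) with k6 | k6
      · exact Or.inl ⟨by linarith, by linarith, by linarith, by linarith⟩
      · exact Or.inr (Or.inr (Or.inl ⟨by linarith, by linarith, by linarith, by linarith⟩))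
  · rcases le_total 0 ((-1 : ℝ) * (y - 5) - (0) * (x - 5)) with k7 | k7
    · rcases le_total 0 ((-3 : ℝ) * (y - 5) - (-2) * (x - 5)) with k8 | k8
      · rcases le_total 0 ((-2 : ℝ) * (y - 5) - (-4) * (x - 5)) with k9 | k9
        · exact Or.inr (Or.inr (Or.inl ⟨by linarith, by linarith, by linarith, by linarith⟩))
        · exact Or.inr (Or.inr (Or.inr (Or.inr (Or.inr (Or.inl ⟨by linarith, by linarith, by linarith⟩)))))
      · rcases le_total 0 ((3 : ℝ) * (y - 4) - (1) * (x - 1)) with k10 | k10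
        · exact Or.inr (Or.inl ⟨by linarith, by linarith, by linarith, by linarith⟩)
        · exact Or.inr (Or.inr (Or.inr (Or.inl ⟨by linarith, by linarith, by linarith, by linarith⟩)))
    · rcases le_total 0 ((1 : ℝ) * (y - 5) - (1) * (x - 5)) with k11 | k11
      · rcases le_total 0 ((-2 : ℝ) * (y - 6) - (-1) * (x - 6)) with k12 | k12
        · exact Or.inr (Or.inr (Or.inr (Or.inr (Or.inr (Or.inr (⟨by linarith, by linarith, by linarith⟩))))))
        · exact Or.inr (Or.inl ⟨by linarith, by linarith, by linarith, by linarith⟩)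
      · exact Or.inr (Or.inr (Or.inl ⟨by linarith, by linarith, by linarith, by linarith⟩))

/-- The bounded faces. -/
def fl : List (List (Fin 8)) :=
  [[0, 3, 4, 5], [0, 6, 7, 2], [1, 4, 3, 2], [1, 7, 6, 5], [0, 5, 6], [1, 5, 4], [1, 2, 7]]

/-- The boundary of the unbounded face. -/
def ol : List (Fin 8) := [0, 3, 2]

/-- The open set of a face. -/
def fs (f : List (Fin 8)) : Set Plane := if f = ol then (Fc (f.map P))ᶜ else Fo (f.map P)

theorem mem3 {p q r : IP} {x : Plane} : x ∈ Fc [p, q, r] ↔ 0 ≤ ori (cc p) (cc q) x ∧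
    0 ≤ ori (cc q) (cc r) x ∧ 0 ≤ ori (cc r) (cc p) x := by
  have : sides [p, q, r] = [(p, q), (q, r), (r, p)] := rfl
  unfold Fc
  rw [this]
  simp

theorem mem4 {p q r s : IP} {x : Plane} : x ∈ Fc [p, q, r, s] ↔ 0 ≤ ori (cc p) (cc q) x ∧
    0 ≤ ori (cc q) (cc r) x ∧ 0 ≤ ori (cc r) (cc s) x ∧ 0 ≤ ori (cc s) (cc p) x := by
  have : sides [p, q, r, s] = [(p, q), (q, r), (r, s), (s, p)] := rfl
  unfold Fc
  rw [this]
  simp

theorem lin {p q : IP} {x : Plane} : ori (cc p) (cc q) x =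
    ((q.1 : ℝ) - p.1) * (x.2 - p.2) - ((q.2 : ℝ) - p.2) * (x.1 - p.1) := rfl

theorem cover {x : Plane} (h : x ∈ Fc (ol.map P)) : ∃ f ∈ fl, x ∈ Fc (f.map P) := by
  have h0 : x ∈ Fc [((0 : ℤ), (4 : ℤ)), (3, 0), (6, 6)] := h
  rw [mem3, lin, lin, lin] at h0
  norm_num only at h0
  obtain ⟨a1, a2, a3⟩ := h0
  have key := cover' x.1 x.2 (by linarith) (by linarith) (by linarith)
  rcases key with k | k | k | k | k | k | k
  · refine ⟨[0, 3, 4, 5], by decide, ?_⟩
    show x ∈ Fc [((0 : ℤ), (4 : ℤ)), (3, 0), (3, 1), (2, 3)]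
    rw [mem4, lin, lin, lin, lin]
    push_cast
    exact ⟨by linarith, by linarith, by linarith, by linarith⟩
  · refine ⟨[0, 6, 7, 2], by decide, ?_⟩
    show x ∈ Fc [((0 : ℤ), (4 : ℤ)), (1, 4), (4, 5), (6, 6)]
    rw [mem4, lin, lin, lin, lin]
    push_cast
    exact ⟨by linarith, by linarith, by linarith, by linarith⟩
  · refine ⟨[1, 4, 3, 2], by decide, ?_⟩
    show x ∈ Fc [((5 : ℤ), (5 : ℤ)), (3, 1), (3, 0), (6, 6)]
    rw [mem4, lin, lin, lin, lin]
    push_cast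
    exact ⟨by linarith, by linarith, by linarith, by linarith⟩
  · refine ⟨[1, 7, 6, 5], by decide, ?_⟩
    show x ∈ Fc [((5 : ℤ), (5 : ℤ)), (4, 5), (1, 4), (2, 3)]
    rw [mem4, lin, lin, lin, lin]
    push_cast
    exact ⟨by linarith, by linarith, by linarith, by linarith⟩
  · refine ⟨[0, 5, 6], by decide, ?_⟩
    show x ∈ Fc [((0 : ℤ), (4 : ℤ)), (2, 3), (1, 4)]
    rw [mem3, lin, lin, lin]
    push_cast
    exact ⟨by linarith, by linarith, by linarith⟩
  · refine ⟨[1, 5, 4], by decide, ?_⟩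
    show x ∈ Fc [((5 : ℤ), (5 : ℤ)), (2, 3), (3, 1)]
    rw [mem3, lin, lin, lin]
    push_cast
    exact ⟨by linarith, by linarith, by linarith⟩
  · refine ⟨[1, 2, 7], by decide, ?_⟩
    show x ∈ Fc [((5 : ℤ), (5 : ℤ)), (6, 6), (4, 5)]
    rw [mem3, lin, lin, lin]
    push_cast
    exact ⟨by linarith, by linarith, by linarith⟩

/-- Points in the open faces (barycentre-like points, multiplied by 4 or 3). -/
theorem exists_mem (f : List (Fin 8)) (hf : f ∈ ol :: fl) : ∃ c, c ∈ Fo (f.map P) := by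
  have key : ∀ f ∈ ol :: fl, ∃ p ∈ f.map P, ∃ q ∈ f.map P, ∃ r ∈ f.map P,
      ∀ s ∈ sides (f.map P), 0 < oi s.1 s.2 p + oi s.1 s.2 q + oi s.1 s.2 r := by decide +kernel
  obtain ⟨p, -, q, -, r, -, h⟩ := key f hf
  refine ⟨(1 / 2 : ℝ) • ((2 / 3 : ℝ) • cc p + (1 / 3 : ℝ) • cc q) +
    (1 / 2 : ℝ) • ((1 / 3 : ℝ) • cc q + (2 / 3 : ℝ) • cc r), fun s hs => ?_⟩
  rw [ori_comb _ _ _ _ _ _ (by norm_num), ori_comb _ _ _ _ _ _ (by norm_num),
    ori_comb _ _ _ _ _ _ (by norm_num), ori_cc, ori_cc, ori_cc]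
  have h1 : (0 : ℝ) < (oi s.1 s.2 p : ℝ) + (oi s.1 s.2 q : ℝ) + (oi s.1 s.2 r : ℝ) := by
    exact_mod_cast h s hs
  linarith

theorem conv (f : List (Fin 8)) (hf : f ∈ ol :: fl) : convB (f.map P) = true := by
  revert f
  decide +kernel

theorem ol_notMem : ol ∉ fl := by decide

theorem fs_ol : fs ol = (Fc (ol.map P))ᶜ := by
  unfold fs
  rw [if_pos rfl]

theorem fs_fl {f : List (Fin 8)} (hf : f ∈ fl) : fs f = Fo (f.map P) := by
  unfold fs
  rw [if_neg]
  rintro rfl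
  exact ol_notMem hf

theorem fs_open {f : List (Fin 8)} (hf : f ∈ ol :: fl) : IsOpen (fs f) := by
  rcases List.mem_cons.1 hf with rfl | h
  · rw [fs_ol]
    exact (isClosed_Fc _).isOpen_compl
  · rw [fs_fl h]
    exact isOpen_Fo _

theorem fs_frontier {f : List (Fin 8)} (hf : f ∈ ol :: fl) (x : Plane) :
    x ∈ frontier (fs f) ↔ ∃ s ∈ sides (f.map P), x ∈ segment ℝ (cc s.1) (cc s.2) := by
  obtain ⟨c, hc⟩ := exists_mem f hf
  rw [← sides_eq (conv f hf)]
  rcases List.mem_cons.1 hf with rfl | h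
  · rw [fs_ol, frontier_compl_Fc hc]
  · rw [fs_fl h, frontier_Fo hc]

theorem half_conn (p q : Plane) : IsPreconnected {x : Plane | ori p q x < 0} :=
  (convex_half p q).isPreconnected

theorem fs_conn {f : List (Fin 8)} (hf : f ∈ ol :: fl) : IsPreconnected (fs f) := by
  rcases List.mem_cons.1 hf with rfl | h
  · rw [fs_ol]
    have h1 : (Fc (ol.map P))ᶜ = ({x : Plane | ori (cc (0, 4)) (cc (3, 0)) x < 0} ∪
        {x | ori (cc (3, 0)) (cc (6, 6)) x < 0}) ∪ {x | ori (cc (6, 6)) (cc (0, 4)) x < 0} := by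
      ext x
      have : x ∈ Fc (ol.map P) ↔ x ∈ Fc [((0 : ℤ), (4 : ℤ)), (3, 0), (6, 6)] := Iff.rfl
      rw [Set.mem_compl_iff, this, mem3]
      simp only [Set.mem_union, Set.mem_ofPred_eq]
      constructor
      · intro h
        by_contra h'
        simp only [not_or, not_lt] at h'
        exact h ⟨h'.1.1, h'.1.2, h'.2⟩
      · rintro h ⟨h1, h2, h3⟩
        rcases h with (h | h) | h <;> linarith
    rw [h1]
    refine IsPreconnected.union ((-5 : ℝ), (5 : ℝ)) ?_ ?_ ?_ (half_conn _ _)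
    · left
      show ori _ _ _ < 0
      rw [lin]
      norm_num
    · show ori _ _ _ < 0
      rw [lin]
      norm_num
    · refine IsPreconnected.union ((3 : ℝ), (-1 : ℝ)) ?_ ?_ (half_conn _ _) (half_conn _ _)
      · show ori _ _ _ < 0
        rw [lin]
        norm_num
      · show ori _ _ _ < 0
        rw [lin]
        norm_num
  · rw [fs_fl h]
    exact (convex_Fo _).isPreconnected

/-- The drawing of the uncrossed edges. -/
abbrev U : Set Plane := support (uncrossed G (pt P)) (pt P)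

theorem mem_U {x : Plane} (h : x ∈ U) :
    ∃ a b, hb a b = true ∧ x ∈ segment ℝ (cc (P a)) (cc (P b)) := by
  rcases h with ⟨v, rfl⟩ | ⟨a, b, hab, hx⟩
  · have : ∀ v, ∃ w, hb v w = true := by decide +kernel
    obtain ⟨w, hw⟩ := this v
    exact ⟨v, w, hw, left_mem_segment ℝ _ _⟩
  · exact ⟨a, b, (uncrossed_iff a b).1 hab, hx⟩

theorem side_U {f : List (Fin 8)} (hf : f ∈ ol :: fl) {s : IP × IP} (hs : s ∈ sides (f.map P))
    {x : Plane} (hx : x ∈ segment ℝ (cc s.1) (cc s.2)) : x ∈ U := by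
  have key : ∀ f ∈ ol :: fl, ∀ s ∈ sides (f.map P), ∃ a b, hb a b = true ∧ s = (P a, P b) := by
    decide +kernel
  obtain ⟨a, b, hab, rfl⟩ := key f hf s hs
  exact Or.inr ⟨a, b, (uncrossed_iff a b).2 hab, hx⟩

theorem ver_ol (v : Fin 8) : cc (P v) ∈ Fc (ol.map P) := by
  have key : ∀ v, ∀ s ∈ sides (ol.map P), 0 ≤ oi s.1 s.2 (P v) := by decide +kernel
  intro s hs
  rw [ori_cc]
  exact_mod_cast key v s hs

theorem fs_sub {f : List (Fin 8)} (hf : f ∈ ol :: fl) : fs f ⊆ Uᶜ := by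
  intro x hx hU
  obtain ⟨a, b, hab, hs⟩ := mem_U hU
  rcases List.mem_cons.1 hf with rfl | h
  · rw [fs_ol] at hx
    exact hx ((convex_Fc _).segment_subset (ver_ol a) (ver_ol b) hs)
  · rw [fs_fl h] at hx
    have key : ∀ f ∈ fl, ∀ a b, hb a b = true → disB (f.map P) (P a) (P b) = true := by
      decide +kernel
    exact disB_spec (key f h a b hab) hs hx

theorem fs_comp {f : List (Fin 8)} (hf : f ∈ ol :: fl) {x : Plane} (hx : x ∈ fs f) :
    connectedComponentIn Uᶜ x = fs f := by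
  refine comp_eq (fs_open hf) (fs_conn hf) (fs_sub hf) ?_ hx
  intro y hy
  obtain ⟨s, hs, hy⟩ := (fs_frontier hf y).1 hy
  exact side_U hf hs hy

theorem face_eq {F : Set Plane} (h : IsFace (uncrossed G (pt P)) (pt P) F) :
    ∃ f ∈ ol :: fl, F = fs f := by
  obtain ⟨x, hx, rfl⟩ := h
  by_cases h1 : x ∈ Fc (ol.map P)
  · obtain ⟨f, hf, h2⟩ := cover h1
    have hf' : f ∈ ol :: fl := List.mem_cons_of_mem _ hf
    have h3 : x ∈ Fo (f.map P) := by
      by_contra h3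
      obtain ⟨s, hs, h4⟩ := (sides_eq (conv f hf') x).1 ⟨h2, h3⟩
      exact hx (side_U hf' hs h4)
    exact ⟨f, hf', fs_comp hf' (by rw [fs_fl hf]; exact h3)⟩
  · exact ⟨ol, List.mem_cons_self, fs_comp List.mem_cons_self (by rw [fs_ol]; exact h1)⟩

/-- The vertices on the boundary of a face. -/
theorem ver_front {f : List (Fin 8)} (hf : f ∈ ol :: fl) {v : Fin 8}
    (h : pt P v ∈ frontier (fs f)) : v ∈ f := by
  obtain ⟨s, hs, hx⟩ := (fs_frontier hf _).1 h
  have h1 := ori_zero_of_mem hx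
  unfold pt at h1
  rw [ori_cc] at h1
  have h2 : oi s.1 s.2 (P v) = 0 := by exact_mod_cast h1
  have key : ∀ f ∈ ol :: fl, ∀ s ∈ sides (f.map P), ∀ v, oi s.1 s.2 (P v) = 0 → v ∈ f := by
    decide +kernel
  exact key f hf s hs v h2

theorem tri_mem {f : List (Fin 8)} (hf : f ∈ ol :: fl) {a b c : Fin 8}
    (h : Triangular (uncrossed G (pt P)) (pt P) (fs f) a b c) :
    a ∈ f ∧ b ∈ f ∧ c ∈ f ∧ hb a b = true ∧ hb b c = true ∧ hb c a = true := by
  obtain ⟨h1, h2, h3, h4⟩ := h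
  refine ⟨ver_front hf ?_, ver_front hf ?_, ver_front hf ?_, (uncrossed_iff _ _).1 h1,
    (uncrossed_iff _ _).1 h2, (uncrossed_iff _ _).1 h3⟩ <;> rw [h4]
  · exact Or.inl (Or.inl (left_mem_segment ℝ _ _))
  · exact Or.inl (Or.inr (left_mem_segment ℝ _ _))
  · exact Or.inr (left_mem_segment ℝ _ _)

theorem quad_mem {f : List (Fin 8)} (hf : f ∈ ol :: fl) {a b c d : Fin 8}
    (h : Quadrangular (uncrossed G (pt P)) (pt P) (fs f) a b c d) :
    a ∈ f ∧ b ∈ f ∧ c ∈ f ∧ d ∈ f ∧ hb a b = true ∧ hb b c = true ∧ hb c d = true ∧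
      hb d a = true ∧ a ≠ c ∧ b ≠ d := by
  obtain ⟨h1, h2, h3, h4, h5, h6, h7⟩ := h
  refine ⟨ver_front hf ?_, ver_front hf ?_, ver_front hf ?_, ver_front hf ?_,
    (uncrossed_iff _ _).1 h1, (uncrossed_iff _ _).1 h2, (uncrossed_iff _ _).1 h3,
    (uncrossed_iff _ _).1 h4, h5, h6⟩ <;> rw [h7]
  · exact Or.inl (Or.inl (Or.inl (left_mem_segment ℝ _ _)))
  · exact Or.inl (Or.inl (Or.inr (left_mem_segment ℝ _ _)))
  · exact Or.inl (Or.inr (left_mem_segment ℝ _ _))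
  · exact Or.inr (left_mem_segment ℝ _ _)

/-- An edge that meets the face `f`. -/
theorem meets {f : List (Fin 8)} (hf : f ∈ ol :: fl) {a b : Fin 8}
    {x : Plane} (hx : x ∈ segment ℝ (cc (P a)) (cc (P b))) (hF : x ∈ fs f) :
    f ∈ fl ∧ disB (f.map P) (P a) (P b) = false := by
  rcases List.mem_cons.1 hf with rfl | h
  · rw [fs_ol] at hF
    exact (hF ((convex_Fc _).segment_subset (ver_ol a) (ver_ol b) hx)).elim
  · refine ⟨h, ?_⟩
    by_contra h1
    rw [Bool.not_eq_false] at h1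
    rw [fs_fl h] at hF
    exact disB_spec h1 hx hF

theorem front3 {f : List (Fin 8)} (hf : f ∈ ol :: fl) (a b c : Fin 8) (h : f = [a, b, c]) :
    frontier (fs f) = Seg (pt P) a b ∪ Seg (pt P) b c ∪ Seg (pt P) c a := by
  ext x
  rw [fs_frontier hf]
  subst h
  have : sides ([a, b, c].map P) = [(P a, P b), (P b, P c), (P c, P a)] := rfl
  rw [this]
  simp only [List.mem_cons, List.not_mem_nil, or_false, exists_eq_or_imp, exists_eq_left,
    Set.mem_union, or_assoc]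
  rfl

theorem front4 {f : List (Fin 8)} (hf : f ∈ ol :: fl) (a b c d : Fin 8) (h : f = [a, b, c, d]) :
    frontier (fs f) = Seg (pt P) a b ∪ Seg (pt P) b c ∪ Seg (pt P) c d ∪ Seg (pt P) d a := by
  ext x
  rw [fs_frontier hf]
  subst h
  have : sides ([a, b, c, d].map P) = [(P a, P b), (P b, P c), (P c, P d), (P d, P a)] := rfl
  rw [this]
  simp only [List.mem_cons, List.not_mem_nil, or_false, exists_eq_or_imp, exists_eq_left,
    Set.mem_union, or_assoc]
  rfl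

theorem nearOptimal : NearOptimal G (pt P) := by
  refine ⟨onePlaneP, ?_, ?_, ?_, ?_⟩
  · intro F hF
    obtain ⟨f, hf, rfl⟩ := face_eq hF
    have key : ∀ f ∈ ol :: fl, (∃ a b c : Fin 8, f = [a, b, c] ∧ hb a b = true ∧ hb b c = true ∧
        hb c a = true) ∨ (∃ a b c d : Fin 8, f = [a, b, c, d] ∧ hb a b = true ∧ hb b c = true ∧
        hb c d = true ∧ hb d a = true ∧ a ≠ c ∧ b ≠ d) := by decide +kernel
    rcases key f hf with ⟨a, b, c, h, h1, h2, h3⟩ | ⟨a, b, c, d, h, h1, h2, h3, h4, h5, h6⟩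
    · exact Or.inl ⟨a, b, c, (uncrossed_iff _ _).2 h1, (uncrossed_iff _ _).2 h2,
        (uncrossed_iff _ _).2 h3, front3 hf a b c h⟩
    · exact Or.inr ⟨a, b, c, d, (uncrossed_iff _ _).2 h1, (uncrossed_iff _ _).2 h2,
        (uncrossed_iff _ _).2 h3, (uncrossed_iff _ _).2 h4, h5, h6, front4 hf a b c d h⟩
  · intro F a b c d hF hQ
    obtain ⟨f, hf, rfl⟩ := face_eq hF
    obtain ⟨m1, m2, m3, m4, e1, e2, e3, e4, n1, n2⟩ := quad_mem hf hQ
    have key : ∀ f ∈ ol :: fl, ∀ a ∈ f, ∀ b ∈ f, ∀ c ∈ f, ∀ d ∈ f, (hb a b = true ∧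
        hb b c = true ∧ hb c d = true ∧ hb d a = true ∧ a ≠ c ∧ b ≠ d) →
        f ∈ fl ∧ gb a c = true ∧ gb b d = true ∧ crsB (P a, P c) (P b, P d) = true ∧
        diaB (f.map P) (P a) (P c) = true ∧
        ∀ e g, gb e g = true → disB (f.map P) (P e) (P g) = false →
          (e = a ∧ g = c) ∨ (e = c ∧ g = a) ∨ (e = b ∧ g = d) ∨ (e = d ∧ g = b) := by
      decide +kernel
    obtain ⟨k0, k1, k2, k3, k4, k5⟩ := key f hf a m1 b m2 c m3 d m4 ⟨e1, e2, e3, e4, n1, n2⟩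
    refine ⟨k1, k2, ?_, ?_⟩
    · obtain ⟨⟨x, hx1, hx2⟩, hu, -⟩ := crsB_spec k3
      have hs1 := openSegment_subset_segment _ _ _ hx1
      have hs2 := openSegment_subset_segment _ _ _ hx2
      refine ⟨x, ?_, ?_⟩
      · rw [fs_fl k0]
        exact diaB_spec k4 hx1
      · ext y
        rw [Set.mem_singleton_iff]
        constructor
        · rintro ⟨h1, h2⟩
          exact hu y x h1 h2 hs1 hs2
        · rintro rfl
          exact ⟨hs1, hs2⟩
    · rintro e g heg ⟨x, hx, hx'⟩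
      obtain ⟨-, h1⟩ := meets hf hx hx'
      rcases k5 e g heg h1 with ⟨rfl, rfl⟩ | ⟨rfl, rfl⟩ | ⟨rfl, rfl⟩ | ⟨rfl, rfl⟩
      · exact Or.inl rfl
      · exact Or.inl Sym2.eq_swap
      · exact Or.inr rfl
      · exact Or.inr Sym2.eq_swap
  · intro F a b c hF hT e g heg
    obtain ⟨f, hf, rfl⟩ := face_eq hF
    obtain ⟨m1, m2, m3, e1, e2, e3⟩ := tri_mem hf hT
    rw [Set.eq_empty_iff_forall_notMem]
    rintro x ⟨hx, hx'⟩
    obtain ⟨h0, h1⟩ := meets hf hx hx'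
    have key : ∀ f ∈ fl, ∀ a ∈ f, ∀ b ∈ f, ∀ c ∈ f, hb a b = true → hb b c = true →
        hb c a = true → ∀ e g, gb e g = true → disB (f.map P) (P e) (P g) = true := by
      decide +kernel
    rw [key f h0 a m1 b m2 c m3 e1 e2 e3 e g heg] at h1
    exact Bool.noConfusion h1
  · intro F F' a b c c' hF hF' hne hT hT'
    obtain ⟨f, hf, rfl⟩ := face_eq hF
    obtain ⟨f', hf', rfl⟩ := face_eq hF'
    obtain ⟨m1, m2, m3, e1, e2, e3⟩ := tri_mem hf hT
    obtain ⟨m1', m2', m3', e1', e2', e3'⟩ := tri_mem hf' hT'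
    have key : ∀ f ∈ ol :: fl, ∀ f' ∈ ol :: fl, ∀ a ∈ f, ∀ b ∈ f, ∀ c ∈ f, hb a b = true →
        hb b c = true → hb c a = true → a ∈ f' → b ∈ f' → ∀ c' ∈ f', hb b c' = true →
        hb c' a = true → f = f' := by decide +kernel
    apply hne
    rw [key f hf f' hf' a m1 b m2 c m3 e1 e2 e3 m1' m2' c' m3' e2' e3']

/-- There are a near-optimal 1-plane graph `G` (drawn with straight-line edges) with 8 vertices and
two non-adjacent vertices `u`, `v` such that `G + uv` is 1-planar (it even has a straight-line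
1-planar drawing). -/
theorem result : ∃ (G : SimpleGraph (Fin 8)) (p q : Fin 8 → Plane) (u v : Fin 8),
    NearOptimal G p ∧ u ≠ v ∧ ¬ G.Adj u v ∧ OnePlane (G ⊔ SimpleGraph.edge u v) q :=
  ⟨G, pt P, pt Q, 3, 7, nearOptimal, by decide, by
    show ¬ gb 3 7 = true
    decide +kernel, onePlaneQ⟩

end Pool.Agent.Results.MP_072d80_co.NotMaximal
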